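import Pool.Agent.E8helper19.QC.Stm
import Pool.Agent.H581R2.SARun

set_option autoImplicit false

/-!
# QC1: a polynomial tending to `-∞` does so at least as fast as a power
-/

namespace Pool.Agent.E8helper44.QC

open Filter Topology
open Pool.Agent.E8helper19.QC
open Pool.Agent.H581R2

/-! ### Growth of a branch of an algebraic curve -/

lemma abs_eval_le (f : Polynomial ℝ) (J : ℕ) (hJ : f.natDegree ≤ J) :
    ∃ B : ℝ, 0 ≤ B ∧ ∀ s : ℝ, 1 ≤ s → |f.eval s| ≤ B * s ^ J := by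
  refine ⟨∑ i ∈ Finset.range (f.natDegree + 1), |f.coeff i|, Finset.sum_nonneg fun i _ => abs_nonneg _,
    fun s hs => ?_⟩
  rw [Polynomial.eval_eq_sum_range, Finset.sum_mul]
  refine (Finset.abs_sum_le_sum_abs _ _).trans (Finset.sum_le_sum fun i hi => ?_)
  rw [abs_mul, abs_pow, abs_of_nonneg (by linarith : (0 : ℝ) ≤ s)]
  refine mul_le_mul_of_nonneg_left (pow_le_pow_right₀ hs ?_) (abs_nonneg _)
  rw [Finset.mem_range] at hi
  omega

lemma lower (h : Polynomial ℝ) (hh : h ≠ 0) : ∃ c : ℝ, 0 < c ∧ ∀ᶠ s in atTop, c ≤ |h.eval s| := by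
  by_cases hd : 0 < h.degree
  · exact ⟨1, one_pos, (Polynomial.abs_tendsto_atTop h hd).eventually_ge_atTop 1⟩
  · rw [not_lt] at hd
    have h1 := Polynomial.eq_C_of_degree_le_zero hd
    have h0 : h.coeff 0 ≠ 0 := by
      intro h0
      rw [h0, Polynomial.C_0] at h1
      exact hh h1
    refine ⟨|h.coeff 0|, abs_pos.2 h0, Eventually.of_forall fun s => ?_⟩
    rw [h1]
    simp

lemma growth (Q : Polynomial (Polynomial ℝ)) (hQ : Q ≠ 0) (g : ℝ → ℝ) (hg : Tendsto g atTop atTop)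
    (hz : ∀ r, 0 < r → Polynomial.eval (g r) (Polynomial.eval (Polynomial.C r) Q) = 0) :
    ∃ c δ R : ℝ, 0 < c ∧ 0 < δ ∧ ∀ r, R ≤ r → c * r ^ δ ≤ g r := by
  classical
  set D := Q.natDegree with hD
  set J := ∑ i ∈ Finset.range (D + 1), (Q.coeff i).natDegree + 1 with hJ
  have hJi : ∀ i ∈ Finset.range (D + 1), (Q.coeff i).natDegree ≤ J := by
    intro i hi
    have := Finset.single_le_sum (f := fun i => (Q.coeff i).natDegree) (fun j _ => Nat.zero_le _) hi
    omega
  have hB : ∀ i, ∃ B : ℝ, 0 ≤ B ∧ (i ∈ Finset.range (D + 1) → ∀ s : ℝ, 1 ≤ s → |(Q.coeff i).eval s| ≤ B * s ^ J) := by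
    intro i
    by_cases hi : i ∈ Finset.range (D + 1)
    · obtain ⟨B, h0, h1⟩ := abs_eval_le (Q.coeff i) J (hJi i hi)
      exact ⟨B, h0, fun _ => h1⟩
    · exact ⟨0, le_rfl, fun h => absurd h hi⟩
  choose B hB0 hB1 using hB
  obtain ⟨c, hc, hlow⟩ := lower Q.leadingCoeff (Polynomial.leadingCoeff_ne_zero.2 hQ)
  set BB := ∑ i ∈ Finset.range D, B i + 1 with hBB
  have hBB0 : 0 < BB := by
    have : 0 ≤ ∑ i ∈ Finset.range D, B i := Finset.sum_nonneg fun i _ => hB0 i
    linarith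
  have hJ0 : J ≠ 0 := by omega
  obtain ⟨R, hR⟩ := eventually_atTop.1 (((hg.eventually hlow).and (hg.eventually_ge_atTop 1)).and
    (eventually_ge_atTop (1 : ℝ)))
  refine ⟨(c / BB) ^ ((J : ℝ)⁻¹), (J : ℝ)⁻¹, R, by positivity, by positivity, fun r hr => ?_⟩
  obtain ⟨⟨h1, h2⟩, h3⟩ := hR r hr
  have hr0 : 0 < r := by linarith
  have hg0 : 0 ≤ g r := by linarith
  have hz' := hz r hr0
  rw [Polynomial.eval_eq_sum_range (p := Q) (Polynomial.C r), Finset.sum_range_succ, Polynomial.eval_add,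
    Polynomial.eval_finsetSum] at hz'
  have e1 : Polynomial.eval (g r) (Q.coeff Q.natDegree * Polynomial.C r ^ Q.natDegree) =
      (Q.leadingCoeff).eval (g r) * r ^ D := by
    rw [Polynomial.eval_mul, Polynomial.eval_pow, Polynomial.eval_C]
    rfl
  rw [e1] at hz'
  have e2 : |(Q.leadingCoeff).eval (g r) * r ^ D| ≤ ∑ i ∈ Finset.range D, B i * g r ^ J * r ^ i := by
    have : (Q.leadingCoeff).eval (g r) * r ^ D =
        -∑ i ∈ Finset.range Q.natDegree, Polynomial.eval (g r) (Q.coeff i * Polynomial.C r ^ i) := by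
      linarith
    rw [this, abs_neg]
    refine (Finset.abs_sum_le_sum_abs _ _).trans (Finset.sum_le_sum fun i hi => ?_)
    rw [Polynomial.eval_mul, Polynomial.eval_pow, Polynomial.eval_C, abs_mul, abs_of_nonneg (pow_nonneg hr0.le i)]
    refine mul_le_mul_of_nonneg_right (hB1 i ?_ (g r) h2) (pow_nonneg hr0.le i)
    rw [Finset.mem_range] at hi ⊢
    omega
  have e3 : c * r ^ D ≤ ∑ i ∈ Finset.range D, B i * g r ^ J * r ^ i := by
    refine le_trans ?_ e2
    rw [abs_mul, abs_of_nonneg (pow_nonneg hr0.le D)]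
    exact mul_le_mul_of_nonneg_right h1 (pow_nonneg hr0.le D)
  have e4 : c * r ≤ BB * g r ^ J := by
    rcases Nat.eq_zero_or_pos D with hD0 | hD0
    · rw [hD0] at e3
      simp at e3
      linarith
    · obtain ⟨d, hd⟩ : ∃ d, D = d + 1 := ⟨D - 1, by omega⟩
      rw [hd] at e3
      have e5 : ∑ i ∈ Finset.range (d + 1), B i * g r ^ J * r ^ i ≤ ∑ i ∈ Finset.range (d + 1), B i * g r ^ J * r ^ d := by
        refine Finset.sum_le_sum fun i hi => ?_
        refine mul_le_mul_of_nonneg_left (pow_le_pow_right₀ h3 ?_) (mul_nonneg (hB0 i) (by positivity))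
        rw [Finset.mem_range] at hi
        omega
      rw [← Finset.sum_mul, ← Finset.sum_mul] at e5
      have e6 : (c * r) * r ^ d ≤ ((∑ i ∈ Finset.range (d + 1), B i) * g r ^ J) * r ^ d := by
        calc (c * r) * r ^ d = c * r ^ (d + 1) := by ring
          _ ≤ _ := e3.trans e5
      have e7 := le_of_mul_le_mul_right e6 (pow_pos hr0 d)
      refine e7.trans (mul_le_mul_of_nonneg_right ?_ (by positivity))
      rw [hBB, hd]
      linarith
  have e8 : c / BB * r ≤ g r ^ J := by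
    rw [div_mul_eq_mul_div, div_le_iff₀ hBB0]
    linarith
  calc (c / BB) ^ ((J : ℝ)⁻¹) * r ^ ((J : ℝ)⁻¹) = (c / BB * r) ^ ((J : ℝ)⁻¹) := by
        rw [Real.mul_rpow (by positivity) hr0.le]
    _ ≤ (g r ^ J) ^ ((J : ℝ)⁻¹) := Real.rpow_le_rpow (by positivity) e8 (by positivity)
    _ = g r := Real.pow_rpow_inv_natCast hg0 hJ0

/-! ### The algebraic relation -/

/-- variables: the coefficients, `r` and `s` -/
abbrev Al {n : ℕ} (p : MvPolynomial (Fin n) ℝ) : Type := {m // m ∈ p.support} ⊕ Fin 2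

/-- the point with the coefficients of `p` -/
noncomputable def pt {n : ℕ} (p : MvPolynomial (Fin n) ℝ) (r s : ℝ) : Al p → ℝ :=
  Sum.elim (fun m => p.coeff m.1) ![r, s]

/-- specialisation of the coefficients; the outer variable is `r`, the inner one is `s` -/
noncomputable def Phi {n : ℕ} (p : MvPolynomial (Fin n) ℝ) : MvPolynomial (Al p) ℚ →ₐ[ℚ] Polynomial (Polynomial ℝ) :=
  MvPolynomial.aeval (Sum.elim (fun m => Polynomial.C (Polynomial.C (p.coeff m.1)))
    ![Polynomial.X, Polynomial.C Polynomial.X])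

lemma eval_Phi {n : ℕ} (p : MvPolynomial (Fin n) ℝ) (q : MvPolynomial (Al p) ℚ) (r s : ℝ) :
    Polynomial.eval s (Polynomial.eval (Polynomial.C r) (Phi p q)) = MvPolynomial.aeval (pt p r s) q := by
  induction q using MvPolynomial.induction_on with
  | C a =>
    rw [MvPolynomial.aeval_C]
    unfold Phi
    rw [MvPolynomial.aeval_C]
    rw [Polynomial.algebraMap_apply, Polynomial.algebraMap_apply, Polynomial.eval_C, Polynomial.eval_C]
  | add x y hx hy => simp only [map_add, Polynomial.eval_add, hx, hy]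
  | mul_X x i hx =>
    rw [map_mul, Polynomial.eval_mul, Polynomial.eval_mul, hx, map_mul]
    congr 1
    unfold Phi pt
    rw [MvPolynomial.aeval_X, MvPolynomial.aeval_X]
    rcases i with m | i
    · simp
    · fin_cases i <;> simp

/-- the relation -/
def Rel {n : ℕ} (p : MvPolynomial (Fin n) ℝ) (v : Al p → ℝ) : Prop :=
  ∀ y : Fin n → ℝ, ∑ i, y i ^ 2 = v (Sum.inr 0) ^ 2 → ∑ m : {m // m ∈ p.support}, v (Sum.inl m) * ∏ i, y i ^ (m.1 i) ≤
    - v (Sum.inr 1)

lemma SAP_Rel {n : ℕ} (p : MvPolynomial (Fin n) ℝ) : SAP (Rel p) := by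
  have h1 : PF (fun u : Al p ⊕ Fin n → ℝ => ∑ i, u (Sum.inr i) ^ 2) :=
    PF.sum _ fun i _ => (PF.coord _).pow 2
  have h2 : PF (fun u : Al p ⊕ Fin n → ℝ => u (Sum.inl (Sum.inr 0)) ^ 2) := (PF.coord _).pow 2
  have h3 : PF (fun u : Al p ⊕ Fin n → ℝ => ∑ m : {m // m ∈ p.support}, u (Sum.inl (Sum.inl m)) *
      ∏ i, u (Sum.inr i) ^ (m.1 i)) := by
    refine PF.sum _ fun m _ => (PF.coord _).mul ?_
    exact ⟨∏ i, MvPolynomial.X (Sum.inr i) ^ (m.1 i), fun v => by simp⟩
  have h4 : PF (fun u : Al p ⊕ Fin n → ℝ => - u (Sum.inl (Sum.inr 1))) := (PF.coord _).neg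
  exact SAP.forall_block n ((SAP.eq h1 h2).imp (SAP.le h3 h4))

lemma Rel_pt {n : ℕ} (p : MvPolynomial (Fin n) ℝ) (r s : ℝ) :
    Rel p (pt p r s) ↔ ∀ y : Fin n → ℝ, ∑ i, y i ^ 2 = r ^ 2 → MvPolynomial.eval y p ≤ -s := by
  unfold Rel
  refine forall_congr' fun y => ?_
  have h1 : ∑ m : {m // m ∈ p.support}, pt p r s (Sum.inl m) * ∏ i, y i ^ (m.1 i) = MvPolynomial.eval y p := by
    rw [MvPolynomial.eval_eq']
    exact Finset.sum_coe_sort p.support (fun m => p.coeff m * ∏ i, y i ^ (m i))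
  rw [h1]
  simp [pt]

lemma relation {n : ℕ} (p : MvPolynomial (Fin n) ℝ) (g : ℝ → ℝ)
    (hg : ∀ r, 0 < r → ∀ s, ((∀ y : Fin n → ℝ, ∑ i, y i ^ 2 = r ^ 2 → MvPolynomial.eval y p ≤ -s) ↔ s ≤ g r)) :
    ∃ Q : Polynomial (Polynomial ℝ), Q ≠ 0 ∧
      ∀ r, 0 < r → Polynomial.eval (g r) (Polynomial.eval (Polynomial.C r) Q) = 0 := by
  classical
  obtain ⟨S, hS⟩ := SA.iff (SAP_Rel p)
  refine ⟨∏ q ∈ S.filter (fun q => Phi p q ≠ 0), Phi p q, ?_, fun r hr => ?_⟩
  · exact Finset.prod_ne_zero_iff.2 fun q hq => (Finset.mem_filter.1 hq).2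
  · by_contra hne
    rw [Polynomial.eval_prod, Polynomial.eval_prod] at hne
    replace hne := Finset.prod_ne_zero_iff.1 hne
    have h1 : ∀ q ∈ S, ∀ᶠ s in 𝓝 (g r), SignType.sign (MvPolynomial.aeval (pt p r (g r)) q) =
        SignType.sign (MvPolynomial.aeval (pt p r s) q) := by
      intro q hq
      by_cases hz : Phi p q = 0
      · refine Eventually.of_forall fun s => ?_
        rw [← eval_Phi, ← eval_Phi, hz]
        simp
      · have h2 := hne q (Finset.mem_filter.2 ⟨hq, hz⟩)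
        have hcont : ContinuousAt (fun s => Polynomial.eval s (Polynomial.eval (Polynomial.C r) (Phi p q))) (g r) :=
          (Polynomial.continuous _).continuousAt
        rcases lt_or_gt_of_ne h2 with h3 | h3
        · filter_upwards [hcont.eventually_lt_const h3] with s hs
          rw [← eval_Phi, ← eval_Phi, sign_neg h3, sign_neg hs]
        · filter_upwards [hcont.eventually_const_lt h3] with s hs
          rw [← eval_Phi, ← eval_Phi, sign_pos h3, sign_pos hs]
    have h2 : ∀ᶠ s in 𝓝 (g r), ∀ q ∈ S, SignType.sign (MvPolynomial.aeval (pt p r (g r)) q) =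
        SignType.sign (MvPolynomial.aeval (pt p r s) q) := (Filter.eventually_all_finset S).2 h1
    have h3 : ∀ᶠ s in 𝓝[>] (g r), (∀ q ∈ S, SignType.sign (MvPolynomial.aeval (pt p r (g r)) q) =
        SignType.sign (MvPolynomial.aeval (pt p r s) q)) ∧ s ∈ Set.Ioi (g r) :=
      (h2.filter_mono nhdsWithin_le_nhds).and self_mem_nhdsWithin
    obtain ⟨s, hs1, hs2⟩ := h3.exists
    have h4 := hS _ _ hs1
    have h5 : Rel p (pt p r (g r)) := (Rel_pt p r (g r)).2 ((hg r hr (g r)).2 le_rfl)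
    have h6 : Rel p (pt p r s) := h4.1 h5
    have h7 := (hg r hr s).1 ((Rel_pt p r s).1 h6)
    exact absurd h7 (not_le.2 hs2)

lemma cont_pv {n : ℕ} (p : MvPolynomial (Fin n) ℝ) : Continuous (pv p) := by
  unfold pv
  exact (MvPolynomial.continuous_eval p).comp (continuous_pi fun i => (EuclideanSpace.proj i).continuous)

theorem t_LOJ : S_LOJ := by
  classical
  intro n p hn hp
  have hnt : Nontrivial (E n) := by
    have : Nonempty (Fin n) := ⟨⟨0, hn⟩⟩
    infer_instance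
  have hcont := cont_pv p
  have hex : ∀ r : ℝ, 0 < r → ∃ x : E n, ‖x‖ = r ∧ ∀ y : E n, ‖y‖ = r → pv p y ≤ pv p x := by
    intro r hr
    have hne : (Metric.sphere (0 : E n) r).Nonempty := (NormedSpace.sphere_nonempty).2 hr.le
    obtain ⟨x, hx, hmax⟩ := (isCompact_sphere (0 : E n) r).exists_isMaxOn hne hcont.continuousOn
    refine ⟨x, by simpa using hx, fun y hy => hmax (by simpa using hy)⟩
  choose! X hX1 hX2 using hex
  set g : ℝ → ℝ := fun r => - pv p (X r) with hg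
  have hgt : Tendsto g atTop atTop := by
    have h1 : Tendsto X atTop (cocompact (E n)) := by
      rw [← Metric.cobounded_eq_cocompact, ← tendsto_norm_atTop_iff_cobounded]
      refine tendsto_id.congr' ?_
      filter_upwards [eventually_gt_atTop (0 : ℝ)] with r hr
      exact (hX1 r hr).symm
    exact tendsto_neg_atBot_atTop.comp (hp.comp h1)
  have hgs : ∀ r, 0 < r → ∀ s, ((∀ y : Fin n → ℝ, ∑ i, y i ^ 2 = r ^ 2 → MvPolynomial.eval y p ≤ -s) ↔ s ≤ g r) := by
    intro r hr s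
    constructor
    · intro h
      have h1 := h (fun i => X r i) (by
        have h2 := EuclideanSpace.real_norm_sq_eq (X r)
        rw [hX1 r hr] at h2
        exact h2.symm)
      have h3 : pv p (X r) ≤ -s := h1
      show s ≤ - pv p (X r)
      linarith
    · intro h y hy
      have h1 : ‖(WithLp.toLp 2 y : E n)‖ = r := by
        have h2 := EuclideanSpace.real_norm_sq_eq (WithLp.toLp 2 y : E n)
        have h3 : ‖(WithLp.toLp 2 y : E n)‖ ^ 2 = r ^ 2 := by rw [h2]; exact hy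
        exact (sq_eq_sq₀ (norm_nonneg _) hr.le).1 h3
      have h4 := hX2 r hr _ h1
      have h5 : pv p (WithLp.toLp 2 y : E n) = MvPolynomial.eval y p := rfl
      have h6 : s ≤ - pv p (X r) := h
      rw [h5] at h4
      linarith
  obtain ⟨Q, hQ0, hQ⟩ := relation p g hgs
  obtain ⟨c, δ, R, hc, hδ, hR⟩ := growth Q hQ0 g hgt hQ
  set R' := max R 1 with hR'
  obtain ⟨B, hB⟩ := (isCompact_closedBall (0 : E n) R').bddAbove_image hcont.continuousOn
  refine ⟨c, δ, max 0 (B + c * R' ^ δ), hc, hδ, fun x => ?_⟩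
  rcases le_total ‖x‖ R' with hx | hx
  · have h1 : pv p x ≤ B := hB ⟨x, by simpa using hx, rfl⟩
    have h2 : ‖x‖ ^ δ ≤ R' ^ δ := Real.rpow_le_rpow (norm_nonneg _) hx hδ.le
    have h3 := le_max_right 0 (B + c * R' ^ δ)
    have h4 : c * ‖x‖ ^ δ ≤ c * R' ^ δ := mul_le_mul_of_nonneg_left h2 hc.le
    linarith
  · have hx0 : 0 < ‖x‖ := lt_of_lt_of_le one_pos ((le_max_right _ _).trans hx)
    have h1 := hR ‖x‖ ((le_max_left _ _).trans hx)
    have h2 := hX2 ‖x‖ hx0 x rfl
    have h3 := le_max_left 0 (B + c * R' ^ δ)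
    have h4 : c * ‖x‖ ^ δ ≤ - pv p (X ‖x‖) := h1
    linarith

end Pool.Agent.E8helper44.QC
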